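import Mathlib
import Pool.Agent.H.MP_f46ce3_an.C

namespace Pool.Agent.Results.MP_f46ce3_an.Beurling

/-- The difference quotient of `g` at the pair `(u, w)`. -/
noncomputable def D {X : Type*} [MetricSpace X] (u w : X) (g : X → ℝ) : ℝ := (g u - g w) / dist u w

open Classical in
theorem result {X : Type*} [MetricSpace X] (o : X) {I : Type*} (x y : I → X)
    (hxy : ∀ i, x i ≠ y i) (M : ℝ)
    (hM : IsGLB {K : ℝ | 1 ≤ K ∧ ∀ α : I → ℝ, (∀ i, |α i| ≤ 1) →
      ∃ g : X → ℝ, g o = 0 ∧ (∀ u w, |g u - g w| ≤ K * dist u w) ∧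
        ∀ i, D (x i) (y i) g = α i} M) :
    ∃ f : I → X → ℝ, (∀ i, f i o = 0 ∧ ∃ L, LipschitzWith L (f i)) ∧
      (∀ i j, D (x j) (y j) (f i) = if i = j then 1 else 0) ∧
      ∀ u w, u ≠ w → Summable (fun i => |D u w (f i)|) ∧ ∑' i, |D u w (f i)| ≤ M := by
  have hne := hM.nonempty
  obtain ⟨f, f1, f2, f3⟩ := Pool.Agent.H.MP_f46ce3_an.gen o x y _ hne fun K hK =>
    ⟨zero_le_one.trans hK.1, fun α hα => by
      obtain ⟨g, -, g2, g3⟩ := hK.2 α hα
      exact ⟨g, g2, fun i => (div_eq_iff (dist_pos.2 (hxy i)).ne').1 (g3 i)⟩⟩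
  refine ⟨f, fun i => ⟨f1 i, ?_⟩, fun i j => ?_, fun u w huw => ?_⟩
  · obtain ⟨K, hK⟩ := hne
    refine ⟨⟨K, zero_le_one.trans hK.1⟩, LipschitzWith.of_dist_le_mul fun u w => ?_⟩
    have := f2 K hK {i} u w
    rw [Finset.sum_singleton] at this
    exact this
  · have := (dist_pos.2 (hxy j)).ne'
    rw [D, f3]
    split_ifs <;> simp [this]
  · have h0 := dist_pos.2 huw
    have h1 : ∀ S : Finset I, ∑ i ∈ S, |D u w (f i)| ≤ M := by
      intro S
      refine hM.2 fun K hK => ?_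
      simp only [D, abs_div, abs_dist]
      rw [← Finset.sum_div, div_le_iff₀ h0]
      exact f2 K hK S u w
    exact ⟨summable_of_sum_le (fun _ => abs_nonneg _) h1,
      Real.tsum_le_of_sum_le (fun _ => abs_nonneg _) h1⟩

end Pool.Agent.Results.MP_f46ce3_an.Beurling
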